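import Pool.Agent.H923_Poly.K14
import Pool.Agent.H923_Poly.L1
import Pool.Agent.H923_Poly.L2

/-!
# MP_4637ab_co, Q1: the least number of colors is seven

The least `k` such that there is a polygon coloring of the plane with `k` colors in which every vertex has degree at most `3`
is `7`.
-/

namespace Pool.Agent.Results.MP_4637ab_co.LeastIsSeven

open Pool.Agent.H923_Poly

/-- The least `k` for which some polygon coloring of the plane with `k` colors has all vertex degrees at most `3` is `7`. -/
theorem result : IsLeast {k : ℕ | ∃ P : PolygonColoring k, ∀ v ∈ P.vertices, P.degree v ≤ 3} 7 := by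
  refine ⟨exists_seven, fun k ⟨P, hP⟩ => ?_⟩
  by_contra hk
  obtain ⟨S⟩ := P.toTileSystem (by simp at hk; omega) hP
  exact S.contradiction

end Pool.Agent.Results.MP_4637ab_co.LeastIsSeven
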